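import Pool.Agent.R895.Poly.Convex

set_option autoImplicit false

/-!
# Convex equilateral polygons of all large sizes in rectangular lattices

For every positive integer `m ≡ 3 (mod 4)` and every `n ≥ 5m` the rectangular lattice `Λ(m)`
generated by `(1, 0)` and `(0, √m)` contains a convex equilateral `n`-gon.

The proof. Let `K = ℚ(√-m)`. If `a`, `w` are elements of `K` of absolute value one, then so is
`b = ((1 + w) a - 1) / (a - (1 + w̄))`, and `1 = a + w a + b + w̄ b - a b`. As `a` varies this
gives, for every element `v` of absolute value one and every finite set `F`, five distinct elements of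
absolute value one outside `F` whose sum is `v`. The `m` numbers `-w, …, -w, -w̄, …, -w̄, 1, …, 1`,
where `w = ((m - 1) + 2√-m) / (m + 1)`, with multiplicities `(m + 1)/4, (m + 1)/4, (m - 1)/2`, have
sum zero. Replacing them one after the other we get `5m` distinct elements of absolute value one with
sum zero, and we may add pairs `v, -v`. After multiplication by a common denominator and sorting by
the argument these are the edge vectors of a convex equilateral polygon.
-/

namespace Pool.Agent.Results.MP_349919_co.ConvexEquilateral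

open Complex Pool.Agent.R895.Poly

/-- The Euclidean plane. -/
abbrev Plane : Type := EuclideanSpace ℝ (Fin 2)

/-- The rectangular lattice `Λ(m) = {(a, b√m) : a, b ∈ ℤ}`. -/
def lattice (m : ℕ) : Set Plane := {p | ∃ a b : ℤ, p 0 = a ∧ p 1 = b * Real.sqrt m}

/-- The determinant of two vectors of the plane. It is positive if and only if the second vector
points strictly to the left of the first one. -/
def det (v w : Plane) : ℝ := v 0 * w 1 - v 1 * w 0

/-- `P 0, …, P (n - 1)` are, in this cyclic (counterclockwise) order, the vertices of a convex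
`n`-gon all of whose interior angles are strictly less than `π`: for each side from `P i` to
`P (i + 1)`, all other vertices lie strictly to the left of the line through `P i` and `P (i + 1)`. -/
def IsConvexPolygon {n : ℕ} (P : ZMod n → Plane) : Prop :=
  3 ≤ n ∧ ∀ i j : ZMod n, j ≠ i → j ≠ i + 1 → 0 < det (P (i + 1) - P i) (P j - P i)

/-- All sides of the polygon have the same positive length. -/
def IsEquilateral {n : ℕ} (P : ZMod n → Plane) : Prop :=
  ∃ L : ℝ, 0 < L ∧ ∀ i : ZMod n, dist (P i) (P (i + 1)) = L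

/-- The point of the plane given by a complex number. -/
noncomputable def pt (z : ℂ) : Plane := !₂[z.re, z.im]

theorem pt_sub (z w : ℂ) : pt z - pt w = pt (z - w) := by
  ext k
  fin_cases k <;> simp [pt]

theorem det_pt (z w : ℂ) : det (pt z) (pt w) = ((starRingEnd ℂ) z * w).im := by
  simp [det, pt]
  ring

theorem dist_pt (z w : ℂ) : dist (pt z) (pt w) = ‖z - w‖ := by
  rw [dist_eq_norm, pt_sub, EuclideanSpace.norm_eq, Fin.sum_univ_two, Complex.norm_def,
    Complex.normSq_apply]
  simp [pt, sq_abs]
  ring_nf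

/-- partial sums -/
noncomputable def Q {n : ℕ} (f : Fin n → ℝ) (k : ℕ) : ℂ :=
  ∑ l ∈ Finset.univ.filter (fun l : Fin n => l.val < k), exp (f l * I)

theorem Q_sub {n : ℕ} (f : Fin n → ℝ) {a b : ℕ} (hab : a ≤ b) :
    Q f b - Q f a = ∑ l ∈ Finset.univ.filter (fun l : Fin n => a ≤ l.val ∧ l.val < b),
      exp (f l * I) := by
  classical
  have h : Finset.univ.filter (fun l : Fin n => l.val < b) =
      Finset.univ.filter (fun l : Fin n => l.val < a) ∪
      Finset.univ.filter (fun l : Fin n => a ≤ l.val ∧ l.val < b) := by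
    ext l
    simp only [Finset.mem_union, Finset.mem_filter, Finset.mem_univ, true_and]
    omega
  unfold Q
  rw [h, Finset.sum_union]
  · ring
  · rw [Finset.disjoint_left]
    intro l h1 h2
    simp only [Finset.mem_filter, Finset.mem_univ, true_and] at h1 h2
    omega

theorem Q_zero {n : ℕ} (f : Fin n → ℝ) : Q f 0 = 0 := by
  unfold Q
  simp

theorem Q_n {n : ℕ} (f : Fin n → ℝ) (hs : ∑ l, exp (f l * I) = 0) : Q f n = 0 := by
  unfold Q
  rw [← hs]
  refine Finset.sum_congr ?_ fun _ _ => rfl
  ext l
  simp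

theorem Q_succ {n : ℕ} (f : Fin n → ℝ) (i : Fin n) : Q f (i.val + 1) - Q f i.val = exp (f i * I) := by
  classical
  rw [Q_sub f (Nat.le_succ _)]
  have : Finset.univ.filter (fun l : Fin n => i.val ≤ l.val ∧ l.val < i.val + 1) = {i} := by
    ext l
    simp only [Finset.mem_filter, Finset.mem_univ, true_and, Finset.mem_singleton, Fin.ext_iff]
    omega
  rw [this, Finset.sum_singleton]

theorem im_sum_eq {n : ℕ} (f : Fin n → ℝ) (i : Fin n) (A : Finset (Fin n)) :
    ((starRingEnd ℂ) (exp (f i * I)) * ∑ l ∈ A, exp (f l * I)).im =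
      ∑ l ∈ A, Real.sin (f l - f i) := by
  rw [Finset.mul_sum, im_sum]
  refine Finset.sum_congr rfl fun l _ => ?_
  rw [← exp_conj, ← exp_add]
  have : (starRingEnd ℂ) ((f i : ℂ) * I) + f l * I = ((f l - f i : ℝ) : ℂ) * I := by
    rw [map_mul, conj_ofReal, conj_I]
    push_cast; ring
  rw [this, exp_ofReal_mul_I_im]

/-- For every `m ≡ 3 (mod 4)` and every `n ≥ 5m` the lattice `Λ(m)` contains a convex equilateral
`n`-gon. -/
theorem result (m : ℕ) (hm : m % 4 = 3) (n : ℕ) (hn : 5 * m ≤ n) :
    ∃ P : ZMod n → Plane, (∀ i, P i ∈ lattice m) ∧ IsConvexPolygon P ∧ IsEquilateral P := by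
  classical
  obtain ⟨T, hT, hcard, hsum⟩ := exists_sum_zero hm hn
  obtain ⟨D, hD, hDT⟩ := exists_scale T fun z hz => (hT z hz).1
  obtain ⟨f, hf, hb, hfT, hs⟩ := exists_args T (fun z hz => (hT z hz).norm) hcard hsum
  have hn3 : 3 ≤ n := by omega
  have : NeZero n := ⟨by omega⟩
  have : Fact (1 < n) := ⟨by omega⟩
  have hlat : ∀ k, pt ((D : ℂ) * Q f k) ∈ lattice m := by
    intro k
    have h1 : ∀ l : Fin n, ∃ a b : ℤ, (D : ℂ) * exp (f l * I) = a + b * th m :=
      fun l => hDT _ (hfT l)
    choose a b hab using h1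
    have h2 : (D : ℂ) * Q f k =
        ((∑ l ∈ Finset.univ.filter (fun l : Fin n => l.val < k), a l : ℤ) : ℂ) +
        ((∑ l ∈ Finset.univ.filter (fun l : Fin n => l.val < k), b l : ℤ) : ℂ) * th m := by
      unfold Q
      rw [Finset.mul_sum, Finset.sum_congr rfl fun l _ => hab l, Finset.sum_add_distrib,
        ← Finset.sum_mul]
      push_cast
      rfl
    refine ⟨∑ l ∈ Finset.univ.filter (fun l : Fin n => l.val < k), a l,
      ∑ l ∈ Finset.univ.filter (fun l : Fin n => l.val < k), b l, ?_, ?_⟩
    · rw [h2]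
      simp [pt, th]
    · rw [h2]
      simp [pt, th]
  have hsucc : ∀ i : ZMod n, Q f (i + 1).val = Q f (i.val + 1) := by
    intro i
    rw [ZMod.val_add, ZMod.val_one]
    have hi := i.val_lt
    rcases Nat.lt_or_ge (i.val + 1) n with h | h
    · rw [Nat.mod_eq_of_lt h]
    · have h' : i.val + 1 = n := by omega
      rw [h', Nat.mod_self, Q_zero, Q_n f hs]
  have hDpos : (0 : ℝ) < D := by exact_mod_cast hD
  have hedge : ∀ i : ZMod n, (D : ℂ) * Q f (i + 1).val - D * Q f i.val =
      D * exp (f ⟨i.val, i.val_lt⟩ * I) := by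
    intro i
    have := Q_succ f ⟨i.val, i.val_lt⟩
    rw [hsucc, ← mul_sub, ← this]
  refine ⟨fun i => pt ((D : ℂ) * Q f i.val), fun i => hlat _, ⟨hn3, ?_⟩, ⟨D, hDpos, ?_⟩⟩
  · intro i j hji hji1
    have hvne : j.val ≠ i.val := fun h => hji (ZMod.val_injective n h)
    have hval1 : (i + 1).val = (i.val + 1) % n := by rw [ZMod.val_add, ZMod.val_one]
    have hvne1 : j.val ≠ (i.val + 1) % n := fun h => hji1 (ZMod.val_injective n (h.trans hval1.symm))
    have hi := i.val_lt
    have hj := j.val_lt
    show 0 < det (pt _ - pt _) (pt _ - pt _)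
    rw [pt_sub, pt_sub, det_pt, hedge, ← mul_sub]
    have hred : ∀ A : Finset (Fin n), ∀ ε : ℝ, Q f j.val - Q f i.val =
        ε * ∑ l ∈ A, exp (f l * I) →
        ((starRingEnd ℂ) ((D : ℂ) * exp (f ⟨i.val, hi⟩ * I)) * ((D : ℂ) * (Q f j.val - Q f i.val))).im
          = (D : ℝ) ^ 2 * (ε * ∑ l ∈ A, Real.sin (f l - f ⟨i.val, hi⟩)) := by
      intro A ε h
      rw [h, ← im_sum_eq f ⟨i.val, hi⟩ A, map_mul, map_natCast]
      have : (D : ℂ) * (starRingEnd ℂ) (exp (f ⟨i.val, hi⟩ * I)) *
          ((D : ℂ) * (ε * ∑ l ∈ A, exp (f l * I))) =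
          (((D : ℝ) ^ 2 * ε : ℝ) : ℂ) *
            ((starRingEnd ℂ) (exp (f ⟨i.val, hi⟩ * I)) * ∑ l ∈ A, exp (f l * I)) := by
        push_cast
        ring
      rw [this, im_ofReal_mul]
      ring
    rcases Nat.lt_or_gt_of_ne hvne with hlt | hgt
    · have h1 := left_lt f hf hb hs (i := ⟨i.val, hi⟩) (j := ⟨j.val, hj⟩)
        (Fin.lt_def.2 hlt) (by
          rintro ⟨h2, h3⟩
          apply hvne1
          simp only at h2 h3
          rw [h2, h3, Nat.mod_self])
      rw [hred (Finset.univ.filter fun l : Fin n => (⟨j.val, hj⟩ : Fin n) ≤ l ∧ l < ⟨i.val, hi⟩)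
        (-1) (by
          have h4 := Q_sub f hlt.le
          have h5 : Q f j.val - Q f i.val = -(Q f i.val - Q f j.val) := by ring
          rw [h5, h4]
          push_cast
          rw [neg_one_mul]
          rfl)]
      have : (0 : ℝ) < (D : ℝ) ^ 2 := by positivity
      refine mul_pos this ?_
      rw [neg_one_mul]
      exact h1
    · have hgt' : i.val + 1 < j.val := by
        have h6 : (i.val + 1) % n = i.val + 1 := Nat.mod_eq_of_lt (by omega)
        rw [h6] at hvne1
        omega
      have h1 := left_gt f hf hb hs (i := ⟨i.val, hi⟩) (j := ⟨j.val, hj⟩) hgt'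
      rw [hred (Finset.univ.filter fun l : Fin n => (⟨i.val, hi⟩ : Fin n) ≤ l ∧ l < ⟨j.val, hj⟩)
        1 (by
          have h4 := Q_sub f (le_of_lt hgt)
          rw [h4]
          push_cast
          rw [one_mul]
          rfl)]
      have : (0 : ℝ) < (D : ℝ) ^ 2 := by positivity
      refine mul_pos this ?_
      rw [one_mul]
      exact h1
  · intro i
    show dist (pt _) (pt _) = _
    rw [dist_comm, dist_pt, hedge, norm_mul, norm_exp_ofReal_mul_I, mul_one]
    simp

end Pool.Agent.Results.MP_349919_co.ConvexEquilateral
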